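import Pool.Agent.helper55.VN.SpecD
import Pool.Agent.helper55.VQ.EDT

/-!
# Row vn:QDT (MP_07c750): transport of the coefficients along the flow, for negatively curved metrics
-/

set_option autoImplicit false

open scoped MatrixGroups ContDiff Topology UpperHalfPlane ComplexConjugate ENNReal
open UpperHalfPlane MeasureTheory Filter Set

namespace Pool.Agent.VN

open Pool.Agent.RS Pool.Agent.VQ
open Pool.Agent.RPQ (CEig mean VV IsOp)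

theorem QDT_rf (hNFR : NFR_stmt) (Γ : Subgroup SL(2, ℝ)) (F : Set ℍ) (k : ℝ) (hk : 0 < k) (B : ℕ → ℝ) (D : Dyn) (K : ℕ) (η m R t : ℝ)
    (f : SL(2, ℝ) × ℝ → ℂ → ℂ) (hDm : Dm Γ F) (hD : OKN Γ k B D) (hη : 0 < η) (hη1 : η ≤ 1 / 4) (hm : 0 ≤ m)
    (hR1 : R ^ (-(1 / 2) + η) ≤ 1 / 4) (hR2 : 2 * R ^ (-(1 / 4) : ℝ) ≤ k) (hR : 1 ≤ R) (hf : FaN Γ k D K η m R t f) : EDT_RF D R t f := by
  obtain ⟨C, -, hN⟩ := hNFR k hk
  obtain ⟨h1, h2, -⟩ := hN Γ F B D K η m R t f hDm hD hη hη1 hm hR1 hR2 hR hf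
  intro p hp
  have hp2 : |p.2| ≤ k := by
    have := hp.2
    exact (abs_le.2 ⟨this.1, this.2⟩).trans hR2
  constructor
  · exact h1.comp_continuous (f := fun z : ℍ => (p, z)) (by fun_prop) (fun z => hp2)
  · refine HasCompactSupport.intro (isCompact_closedBall (D.fl p.2 t p.1 • I : ℍ) 1) fun z hz => ?_
    by_contra h
    apply hz
    rw [Metric.mem_closedBall, dist_comm]
    exact ((h2 p hp z).2 h).1

/-- derivative of the phase -/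
theorem QDT_thd (Γ : Subgroup SL(2, ℝ)) (k : ℝ) (B : ℕ → ℝ) (D : Dyn) (hD : OKN Γ k B D) (f : ℍ → ℝ) (R : ℝ) (hf : Continuous fun z => D.U z * f z)
    (p : SL(2, ℝ) × ℝ) (hp : |p.2| ≤ k) (s : ℝ) :
    HasDerivAt (fun s => thP D f R s p) (R / 2 * (D.U (D.fl p.2 s p.1 • I) * f (D.fl p.2 s p.1 • I))) s := by
  have h1 : Continuous fun s : ℝ => D.fl p.2 s p.1 :=
    hD.cfl.comp_continuous (f := fun s : ℝ => ((p.2, s, p.1) : ℝ × ℝ × SL(2, ℝ))) (by fun_prop) (fun z => hp)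
  have hc : Continuous fun s : ℝ => D.U (D.fl p.2 s p.1 • I) * f (D.fl p.2 s p.1 • I) := hf.comp (h1.smul continuous_const)
  exact ((hc.integral_hasStrictDerivAt 0 s).hasDerivAt).const_mul (R / 2)

/-- continuity of functions along the flow -/
theorem QDT_flc (Γ : Subgroup SL(2, ℝ)) (k : ℝ) (B : ℕ → ℝ) (D : Dyn) (hD : OKN Γ k B D) (R : ℝ) (hR : 2 * R ^ (-(1 / 4) : ℝ) ≤ k) (g : ℍ → ℝ) (hg : Continuous g)
    (T : Set ℝ) : ContinuousOn (fun x : (SL(2, ℝ) × ℝ) × ℝ => g (D.fl x.1.2 x.2 x.1.1 • I)) (GW 2 R ×ˢ T) := by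
  have h1 : ContinuousOn (fun x : (SL(2, ℝ) × ℝ) × ℝ => D.fl x.1.2 x.2 x.1.1) (GW 2 R ×ˢ T) :=
    hD.cfl.comp (f := fun x : (SL(2, ℝ) × ℝ) × ℝ => ((x.1.2, x.2, x.1.1) : ℝ × ℝ × SL(2, ℝ))) (by fun_prop)
      (fun x hx => (abs_le.2 ⟨hx.1.2.1, hx.1.2.2⟩).trans hR)
  exact hg.comp_continuousOn (h1.smul continuousOn_const)

/-- the core: everything about the path -/
theorem QDT_core (Γ : Subgroup SL(2, ℝ)) (F : Set ℍ) (k : ℝ) (B : ℕ → ℝ) (D : Dyn) (ch : ℝ → ℝ) (A : Prm) (R : ℝ) (f : ℍ → ℝ) (φ : ℍ → ℂ)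
    (χ : ℍ → ℂ) (hΓ : QU.SurfaceGroup Γ) (hF : QU.NiceDom Γ F) (hD : OKN Γ k B D) (hR2 : 2 * R ^ (-(1 / 4) : ℝ) ≤ k)
    (hφ : FH Γ F φ) (hH : FH Γ F (Hop D.U R φ)) (hUf : QU.Inv Γ (fun z => D.U z * f z)) (hg : QU.Inv Γ (fun z => R / 2 * (D.U z * f z)))
    (hχ : FH Γ F χ) (hχ2 : ∀ z, Hop D.U R φ z = ((R / 2 * (D.U z * f z) : ℝ) : ℂ) * φ z + χ z)
    (hE1 : ∀ p ∈ GW 2 R, ∀ t ∈ Icc 0 (A.sg R), HasDerivAt (fun s => aF D R s (pv D ch A.z A.z1 R s) φ p)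
      (Complex.I * aF D R t (pv D ch A.z A.z1 R t) (Hop D.U R φ) p + Complex.I * aF D R t (Er D ch A.z A.z1 R t) φ p) t)
    (hE2 : ∀ u : ℍ → ℂ, FH Γ F u → ContinuousOn (fun x : (SL(2, ℝ) × ℝ) × ℝ => aF D R x.2 (pv D ch A.z A.z1 R x.2) u x.1) (GW 2 R ×ˢ Icc 0 (A.sg R)))
    (hE3 : ContinuousOn (fun x : (SL(2, ℝ) × ℝ) × ℝ => aF D R x.2 (Er D ch A.z A.z1 R x.2) φ x.1) (GW 2 R ×ˢ Icc 0 (A.sg R)))
    (t a b1 b2 : ℝ) (ht0 : 0 ≤ t) (ht : t ≤ A.sg R) (ha0 : 0 ≤ a) (hb10 : 0 ≤ b1) (hb20 : 0 ≤ b2) (hRF : ∀ s ∈ Icc 0 t, EDT_RF D R s (pv D ch A.z A.z1 R s))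
    (ha : ∀ s ∈ Icc 0 t, nP F 2 R (fun p => aF D R s (pv D ch A.z A.z1 R s) (fun z => ((R / 2 * (D.U z * f z) : ℝ) : ℂ) * φ z) p -
      ((R / 2 * (D.U (D.fl p.2 s p.1 • I) * f (D.fl p.2 s p.1 • I)) : ℝ) : ℂ) * aF D R s (pv D ch A.z A.z1 R s) φ p) ≤ a)
    (hb1 : ∀ s ∈ Icc 0 t, nP F 2 R (aF D R s (pv D ch A.z A.z1 R s) χ) ≤ b1) (hb2 : ∀ s ∈ Icc 0 t, nP F 2 R (aF D R s (Er D ch A.z A.z1 R s) φ) ≤ b2) :
    ∫⁻ p in PW F 2 R, ‖EDT_Y D ch A R f φ t p - EDT_Y D ch A R f φ 0 p‖ₑ ^ 2 ∂mP ≤ ENNReal.ofReal (t ^ 2 * (2 * a + 2 * (2 * b1 + 2 * b2))) := by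
  have : SecondCountableTopology SL(2, ℝ) := A_GLC.2.1
  have : SigmaFinite mG := A_GMG.2.2.1
  have hsf : SFinite mP := by unfold mP; infer_instance
  obtain ⟨hS, -, K, -, hK1, hK2⟩ := EDT_set Γ F R hΓ hF
  have hSG : PW F 2 R ⊆ GW 2 R := hK1.trans hK2
  have hIcc : Icc 0 t ⊆ Icc 0 (A.sg R) := Icc_subset_Icc_right ht
  have hgc := QDT_flc Γ k B D hD R hR2 (fun z => R / 2 * (D.U z * f z)) hg.1 (Icc 0 (A.sg R))
  have hVc : ContinuousOn (fun x : (SL(2, ℝ) × ℝ) × ℝ => EDT_V D ch A R f φ x.2 x.1) (GW 2 R ×ˢ Icc 0 (A.sg R)) :=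
    ((hE2 _ hH).add hE3).sub ((Complex.continuous_ofReal.comp_continuousOn hgc).mul (hE2 _ hφ))
  have hfix : ∀ s ∈ Icc 0 t, ∀ G : (SL(2, ℝ) × ℝ) × ℝ → ℂ, ContinuousOn G (GW 2 R ×ˢ Icc 0 (A.sg R)) → ContinuousOn (fun p => G (p, s)) (GW 2 R) := by
    intro s hs G hG
    exact hG.comp (f := fun p : SL(2, ℝ) × ℝ => (p, s)) (by fun_prop) (fun p hp => ⟨hp, hIcc hs⟩)
  have hp8 : ∀ p ∈ GW 2 R, |p.2| ≤ k := fun p hp => (abs_le.2 ⟨hp.2.1, hp.2.2⟩).trans hR2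
  rw [ENNReal.ofReal_mul (sq_nonneg t)]
  refine EDT_mv mP (PW F 2 R) (fun s p => ‖EDT_V D ch A R f φ s p‖ₑ ^ 2) (EDT_Y D ch A R f φ) (EDT_Z D ch A R f φ) t _ ht0 hS ?_ ?_ ?_ ?_ ?_
  · intro p hp s hs
    have h1 := (((QDT_thd Γ k B D hD f R hUf.1 p (hp8 p (hSG hp)) s).ofReal_comp).mul_const Complex.I).neg.cexp
    have h2 := hE1 p (hSG hp) s (hIcc hs)
    refine (h1.mul h2).congr_deriv ?_
    unfold EDT_Z EDT_V
    simp only [Pi.neg_apply]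
    ring
  · intro p hp
    have h1 : Continuous fun s => thP D f R s p :=
      continuous_iff_continuousAt.2 fun s => (QDT_thd Γ k B D hD f R hUf.1 p (hp8 p (hSG hp)) s).continuousAt
    have h2 : ContinuousOn (fun s => EDT_V D ch A R f φ s p) (Icc 0 t) :=
      hVc.comp (f := fun s : ℝ => (p, s)) (by fun_prop) (fun s hs => ⟨hSG hp, hIcc hs⟩)
    unfold EDT_Z
    exact (Continuous.continuousOn (by fun_prop)).mul (continuousOn_const.mul h2)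
  · intro p hp s hs
    unfold EDT_Z
    rw [← ofReal_norm, ← ofReal_norm, norm_mul, norm_mul, EDT_expn, Complex.norm_I, one_mul, one_mul]
  · rw [Measure.prod_restrict]
    exact ((hVc.mono (prod_mono hSG hIcc)).aestronglyMeasurable (hS.prod measurableSet_Icc)).enorm.pow_const 2
  · intro s hs
    have k1 := hfix s hs _ ((hE2 _ (EDT_fh Γ F _ φ hg hφ)).sub ((Complex.continuous_ofReal.comp_continuousOn hgc).mul (hE2 _ hφ)))
    have k2 := hfix s hs _ (hE2 _ hχ)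
    have k3 := hfix s hs _ hE3
    have l1 := (EDT_ln Γ F R hΓ hF _ k1).le.trans (ENNReal.ofReal_le_ofReal (ha s hs))
    have l2 := (EDT_ln Γ F R hΓ hF _ k2).le.trans (ENNReal.ofReal_le_ofReal (hb1 s hs))
    have l3 := (EDT_ln Γ F R hΓ hF _ k3).le.trans (ENNReal.ofReal_le_ofReal (hb2 s hs))
    have l4 := EDT_s2 (mP.restrict (PW F 2 R)) _ _ (fun p => aF D R s (pv D ch A.z A.z1 R s) χ p + aF D R s (Er D ch A.z A.z1 R s) φ p) b1 b2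
      (EDT_ms Γ F R hΓ hF _ k3) hb10 hb20 (Eventually.of_forall fun p => norm_add_le _ _) l2 l3
    refine EDT_s2 (mP.restrict (PW F 2 R)) _ _ _ a _ (EDT_ms Γ F R hΓ hF _ (k2.add k3)) ha0 (by positivity) (Eventually.of_forall fun p => ?_) l1 l4
    refine le_trans (le_of_eq ?_) (norm_add_le _ _)
    congr 1
    unfold EDT_V
    rw [EDT_add D R s _ (hRF s hs) _ _ _ (EDT_fh Γ F _ φ hg hφ).cont hχ.cont hχ2 p]
    simp only [Pi.add_apply, Pi.sub_apply, Pi.mul_apply, Function.comp]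
    ring

theorem QDT_proof (hQDD : QDD_stmt) (hQDF : QDF_stmt) (hQDH : QDH_stmt) (hQDL : QDL_stmt) (hNSA : NSA_stmt) (hNFB : NFB_stmt) (hNFM : NFM_stmt)
    (hND0 : ND0_stmt) (hNFR : NFR_stmt) (hNUB : NUB_stmt) (hNHA : NHA_stmt) : QDT_stmt := by
  have _ := hNHA
  intro k hk
  obtain ⟨CD, hCD1, hEDD⟩ := hQDD k hk
  obtain ⟨CF, hCF1, hEDF⟩ := hQDF k hk
  obtain ⟨RH, -, hEDH⟩ := hQDH k hk
  obtain ⟨RL, -, hEDL⟩ := hQDL k hk
  obtain ⟨CU, -, hUB⟩ := hNUB k hk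
  obtain ⟨CR, -, hFR⟩ := hNFR k hk
  obtain ⟨CS, hCS1, hVSA⟩ := hNSA k hk
  obtain ⟨CB, hCB1, hVFB⟩ := hNFB k hk
  obtain ⟨CM, hCM1, hVFM⟩ := hNFM k hk
  obtain ⟨C0, hC01, hVD0⟩ := hND0 k hk
  have hM0 : 0 ≤ CM * (1 + CB) := by positivity
  have hP1 : 0 ≤ CB * CM := by positivity
  have hP2 : 0 ≤ CB * C0 := by positivity
  refine ⟨CD + CF + CS + 4 * (CM * (1 + CB)) + CB * CM + CB * C0 + CM + 4 * C0, by linarith, ?_⟩
  intro ch B A hch hA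
  set CC : ℝ := CD + CF + CS + 4 * (CM * (1 + CB)) + CB * CM + CB * C0 + CM + 4 * C0 with hCC
  have hCC1 : 1 ≤ CC := by linarith
  obtain ⟨z0, z01, z12, ez, cz2, -, -⟩ := Adm_small hA hCC1
  have z1p : 0 < A.z1 := by linarith
  have hz1 : CC * A.z1 ≤ 1 := (mul_le_mul_of_nonneg_left z12 (by linarith)).trans cz2
  have hzz : ∀ c : ℝ, c ≤ CC → c * A.z1 ≤ 1 := fun c hc => (mul_le_mul_of_nonneg_right hc z1p.le).trans hz1
  have hAD := Adm_mono hA hCD1 (by linarith : CD ≤ CC)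
  have hAF := Adm_mono hA hCF1 (by linarith : CF ≤ CC)
  have rS := (Adm_small (Adm_mono hA hCS1 (by linarith : CS ≤ CC)) hCS1).2.2.2.2.2.2
  have rM := (Adm_small (Adm_mono hA hCM1 (by linarith : CM ≤ CC)) hCM1).2.2.2.2.2.2
  have r0 := (Adm_small (Adm_mono hA hC01 (by linarith : C0 ≤ CC)) hC01).2.2.2.2.2.2
  have q1 : CB * (CM * A.z1) ≤ 1 := by rw [← mul_assoc]; exact hzz _ (by linarith)
  have q2 : CB * (C0 * A.z1) ≤ 1 := by rw [← mul_assoc]; exact hzz _ (by linarith)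
  have q3 : 4 * (CM * (1 + CB)) * A.z1 ≤ 1 := hzz _ (by linarith)
  have p1 : 0 < CM * A.z1 := by positivity
  have p2 : 0 < C0 * A.z1 := by positivity
  have q4 : CM * A.z1 ≤ 1 / 4 := by nlinarith [mul_nonneg hP1 z1p.le]
  obtain ⟨RD, -, hEDD⟩ := hEDD ch B A hch hAD
  obtain ⟨RF, -, hEDF⟩ := hEDF ch B A hch hAF
  obtain ⟨RS, -, hVSA⟩ := hVSA ch A.e3 A.z A.z1 B hch rS
  obtain ⟨K1, RB1, -, hVFB1⟩ := hVFB (CM * A.z1) p1 q1
  obtain ⟨K2, RB2, -, hVFB2⟩ := hVFB (C0 * A.z1) p2 q2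
  obtain ⟨RM1, -, hVFM1⟩ := hVFM ch K1 A.e3 A.z A.z1 B hch rM
  obtain ⟨RM2, -, hVFM2⟩ := hVFM ch K2 A.e3 A.z A.z1 B hch rM
  obtain ⟨R00, -, hVD0⟩ := hVD0 ch K2 A.e3 A.z A.z1 A.z1 1 hch r0 le_rfl (hzz C0 (by linarith))
  -- asymptotics
  have ev1 : ∀ᶠ R : ℝ in atTop, 52 * (Real.log R) ^ 2 + 2 ≤ R ^ (19 / 6060 : ℝ) := by
    have h := (isLittleO_log_rpow_rpow_atTop (2 : ℝ) (by norm_num : (0 : ℝ) < 19 / 6060)).bound (by norm_num : (0 : ℝ) < 1 / 104)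
    have h2 := (tendsto_rpow_atTop (by norm_num : (0 : ℝ) < 19 / 6060)).eventually (eventually_ge_atTop (4 : ℝ))
    filter_upwards [h, h2, eventually_ge_atTop (1 : ℝ)] with R hR hR2 hR1
    rw [Real.norm_of_nonneg (Real.rpow_nonneg (Real.log_nonneg hR1) _),
      Real.norm_of_nonneg (Real.rpow_nonneg (by linarith) _), Real.rpow_two] at hR
    linarith
  have ev2 : ∀ᶠ R : ℝ in atTop, R ^ (-(1 / 4) : ℝ) ≤ 1 / 16 := by
    have h := tendsto_rpow_neg_atTop (by norm_num : (0 : ℝ) < 1 / 4)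
    exact h.eventually (ge_mem_nhds (by norm_num : (0 : ℝ) < 1 / 16))
  have ev3 : ∀ᶠ R : ℝ in atTop, R ^ (-(1 / 4) : ℝ) ≤ k / 2 := by
    have h := tendsto_rpow_neg_atTop (by norm_num : (0 : ℝ) < 1 / 4)
    exact h.eventually (ge_mem_nhds (by positivity : (0 : ℝ) < k / 2))
  obtain ⟨Re, hRe⟩ := eventually_atTop.1 (ev1.and (ev2.and (ev3.and ((eventually_ge_atTop RL).and ((eventually_ge_atTop RH).and ((eventually_ge_atTop RD).and ((eventually_ge_atTop RF).and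
    ((eventually_ge_atTop RS).and ((eventually_ge_atTop RB1).and ((eventually_ge_atTop RB2).and ((eventually_ge_atTop RM1).and
    ((eventually_ge_atTop RM2).and (eventually_ge_atTop R00)))))))))))))
  refine ⟨max 1 Re, le_max_left _ _, ?_⟩
  intro R t Γ F D f F' μ φ hR hΓ hF hD hE ht0 ht
  have hR1 : 1 ≤ R := (le_max_left _ _).trans hR
  have hR0 : 0 < R := by linarith
  obtain ⟨hl, h16, hk2, hRL, hRH, hRD, hRF, hRS, hRB1, hRB2, hRM1, hRM2, hR00⟩ := hRe R ((le_max_right _ _).trans hR)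
  have hDm : Dm Γ F := Or.inl ⟨hΓ, hF⟩
  have hPU : PV Γ k D.U := (hUB Γ B D.U hD.pot).1
  obtain ⟨hφ, hφ2, hH, hH2, -⟩ := hEDH Γ F D.U R f F' μ φ hRH hΓ hF hPU hE
  obtain ⟨-, -, hUf, -, hLip⟩ := hEDL Γ R B D f hRL hD hE.sm
  have hR2 : 2 * R ^ (-(1 / 4) : ℝ) ≤ k := by linarith
  have hN : 0 ≤ nn F φ := integral_nonneg fun z => by positivity
  have hg : QU.Inv Γ (fun z => R / 2 * (D.U z * f z)) := by
    refine ⟨continuous_const.mul hUf.1, fun γ z => ?_⟩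
    show R / 2 * (D.U (γ • z) * f (γ • z)) = _
    have := hUf.2 γ z
    simp only [] at this
    rw [this]
  have hgl : ∀ z w : ℍ, |R / 2 * (D.U z * f z) - R / 2 * (D.U w * f w)| ≤ 1 / 2 * R ^ (1 / 50 : ℝ) * dist z w := by
    intro z w
    rw [← mul_sub, abs_mul, abs_of_pos (by positivity : 0 < R / 2)]
    have e1 : R * R ^ (-(98 / 100) : ℝ) = R ^ (1 / 50 : ℝ) := by
      nth_rewrite 1 [← Real.rpow_one R]
      rw [← Real.rpow_add hR0]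
      norm_num
    calc R / 2 * |D.U z * f z - D.U w * f w| ≤ R / 2 * (R ^ (-(98 / 100) : ℝ) * dist z w) :=
          mul_le_mul_of_nonneg_left (hLip z w) (by positivity)
      _ = 1 / 2 * (R * R ^ (-(98 / 100) : ℝ)) * dist z w := by ring
      _ = _ := by rw [e1]
  have hχ := EDT_fs Γ F _ _ hH (EDT_fh Γ F _ φ hg hφ)
  have hχn := EDT_nn Γ F hΓ hF _ φ _ hφ.cont hH2
  obtain ⟨hE1, hE2, hE3⟩ := hEDD R Γ F D φ hRD hDm hD hφ hφ2 hH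
  have hts : ∀ s ∈ Icc 0 t, |s| ≤ A.e3 * Real.log R := by
    intro s hs
    rw [abs_of_nonneg hs.1]
    exact hs.2.trans ht
  have hm1 : ∀ η : ℝ, η ≤ 1 / 4 → R ^ (-(1 / 2) + η) ≤ 1 / 4 := fun η hη =>
    (Real.rpow_le_rpow_of_exponent_le hR1 (by linarith : -(1 / 2) + η ≤ -(1 / 4))).trans (by linarith)
  have hRFt : ∀ s ∈ Icc 0 t, EDT_RF D R s (pv D ch A.z A.z1 R s) := fun s hs =>
    QDT_rf hNFR Γ F k hk B D K1 _ _ R s _ hDm hD p1 q4 (Real.rpow_nonneg hR0.le _) (hm1 _ q4) hR2 hR1 (hVFM1 R s Γ D hRM1 hD (hts s hs)).1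
  have h0t : (0 : ℝ) ∈ Icc 0 t := ⟨le_rfl, ht0⟩
  set Q : ℝ := R ^ (-(2 / 101) : ℝ) with hQ
  have hQ0 : 0 ≤ Q := Real.rpow_nonneg hR0.le _
  have hQN : 0 ≤ Q * nn F φ := mul_nonneg hQ0 hN
  -- the three bounds
  have ba : ∀ s ∈ Icc 0 t, nP F 2 R (fun p => aF D R s (pv D ch A.z A.z1 R s) (fun z => ((R / 2 * (D.U z * f z) : ℝ) : ℂ) * φ z) p -
      ((R / 2 * (D.U (D.fl p.2 s p.1 • I) * f (D.fl p.2 s p.1 • I)) : ℝ) : ℂ) * aF D R s (pv D ch A.z A.z1 R s) φ p) ≤ 3 * Q * nn F φ := by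
    intro s hs
    refine (hEDF R s (1 / 2 * R ^ (1 / 50 : ℝ)) Γ F D φ (fun z => R / 2 * (D.U z * f z)) hRF hDm hD hφ hg (by positivity) hgl hs.1 (hs.2.trans ht)).trans ?_
    refine mul_le_mul_of_nonneg_right ?_ hN
    have e1 : (1 / 2 * R ^ (1 / 50 : ℝ)) ^ 2 * R ^ (-(1 / 6) : ℝ) = 1 / 4 * R ^ (1 / 25 - 1 / 6 : ℝ) := by
      rw [mul_pow, ← Real.rpow_natCast (R ^ (1 / 50 : ℝ)), ← Real.rpow_mul hR0.le, mul_assoc, ← Real.rpow_add hR0]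
      norm_num
    rw [e1]
    have e2 : R ^ (1 / 25 - 1 / 6 : ℝ) ≤ Q := Real.rpow_le_rpow_of_exponent_le hR1 (by norm_num)
    linarith
  have bb1 : ∀ s ∈ Icc 0 t, nP F 2 R (aF D R s (pv D ch A.z A.z1 R s) (fun z => Hop D.U R φ z - ((R / 2 * (D.U z * f z) : ℝ) : ℂ) * φ z)) ≤ 4 * Q * nn F φ := by
    intro s hs
    refine ((hVSA R s Γ F D hRS hDm hD hs.1 (hs.2.trans ht)).2 _ hχ).trans ?_
    have e1 : (1 + R ^ (-(1 / 4) : ℝ)) ^ 2 ≤ 2 ^ 2 := pow_le_pow_left₀ (by positivity) (by linarith) 2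
    have e2 : (R ^ (-(1 / 101) : ℝ)) ^ 2 ≤ Q := EDT_n2 R _ hR1 le_rfl
    calc (1 + R ^ (-(1 / 4) : ℝ)) ^ 2 * nn F (fun z => Hop D.U R φ z - ((R / 2 * (D.U z * f z) : ℝ) : ℂ) * φ z)
        ≤ 2 ^ 2 * ((R ^ (-(1 / 101) : ℝ)) ^ 2 * nn F φ) := mul_le_mul e1 hχn (integral_nonneg fun z => by positivity) (by norm_num)
      _ ≤ 2 ^ 2 * (Q * nn F φ) := mul_le_mul_of_nonneg_left (mul_le_mul_of_nonneg_right e2 hN) (by norm_num)
      _ = _ := by ring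
  have bb2 : ∀ s ∈ Icc 0 t, nP F 2 R (aF D R s (Er D ch A.z A.z1 R s) φ) ≤ Q * nn F φ := by
    intro s hs
    refine ((hVFB1 R _ s Γ F B D _ hRB1 hDm hD (Real.rpow_nonneg hR0.le _) (hVFM1 R s Γ D hRM1 hD (hts s hs)).2.1).2 φ hφ).trans ?_
    refine mul_le_mul_of_nonneg_right ?_ hN
    rw [← Real.rpow_add hR0]
    refine EDT_n2 R _ hR1 ?_
    nlinarith
  have bb0 : ∫⁻ p in PW F 2 R, ‖aF D R 0 (fun p v => pv D ch A.z A.z1 R 0 p v - fG D ch A.z R p v) φ p‖ₑ ^ 2 ∂mP ≤ ENNReal.ofReal (Q * nn F φ) ∧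
      Measurable (aF D R 0 (fun p v => pv D ch A.z A.z1 R 0 p v - fG D ch A.z R p v) φ) := by
    have hb := hVFM2 R 0 Γ D hRM2 hD (by simpa using hts 0 h0t)
    have hfa : FaN Γ k D K2 (C0 * A.z1) (R ^ (-1 : ℝ)) R 0 (fun p v => pv D ch A.z A.z1 R 0 p v - fG D ch A.z R p v) := by
      refine ⟨hb.1.cont.sub hb.2.2.1.cont, fun γ p => ?_, fun p hp => ?_⟩
      · have i1 := hb.1.inv γ p
        have i2 := hb.2.2.1.inv γ p
        funext v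
        simp only [i1, i2]
      · rw [hD.fl0]
        exact (hVD0 R Γ B D p 0 hR00 hD ((abs_le.2 ⟨hp.2.1, hp.2.2⟩).trans hR2) (by simpa using hts 0 h0t)).1
    have q5 : C0 * A.z1 ≤ 1 := hzz C0 (by linarith)
    have hnp : nP F 2 R (aF D R 0 (fun p v => pv D ch A.z A.z1 R 0 p v - fG D ch A.z R p v) φ) ≤ Q * nn F φ := by
      refine ((hVFB2 R _ 0 Γ F B D _ hRB2 hDm hD (Real.rpow_nonneg hR0.le _) hfa).2 φ hφ).trans ?_
      refine mul_le_mul_of_nonneg_right ?_ hN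
      rw [← Real.rpow_add hR0]
      refine EDT_n2 R _ hR1 ?_
      linarith
    have hFP := (hFR Γ F B D K2 _ _ R 0 _ hDm hD p2 (by linarith [hzz (4 * C0) (by linarith)]) (Real.rpow_nonneg hR0.le _)
      (hm1 _ (by linarith [hzz (4 * C0) (by linarith)])) hR2 hR1 hfa).2.2.2.2.1 φ hφ
    exact ⟨(EDT_ln2 Γ F R hΓ hF _ hFP.meas hFP.bdd).le.trans (ENNReal.ofReal_le_ofReal hnp), hFP.meas⟩
  have hcore := QDT_core Γ F k B D ch A R f φ _ hΓ hF hD hR2 hφ hH hUf hg hχ (fun z => by ring) hE1 hE2 hE3 t (3 * Q * nn F φ) (4 * Q * nn F φ) (Q * nn F φ) ht0 ht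
    (by positivity) (by positivity) hQN hRFt ba bb1 bb2
  have hl2 : t ^ 2 ≤ (Real.log R) ^ 2 := by
    have h1 : A.e3 ≤ 1 := by nlinarith
    have h2 : 0 ≤ Real.log R := Real.log_nonneg hR1
    have h3 : t ≤ Real.log R := ht.trans (by unfold Prm.sg; nlinarith)
    exact pow_le_pow_left₀ ht0 h3 2
  refine EDT_le F R _ _ (by positivity) (le_trans ?_ (ENNReal.ofReal_le_ofReal
    (EDT_num Q (nn F φ) (3 * Q * nn F φ) (4 * Q * nn F φ) (Q * nn F φ) (Q * nn F φ) t (Real.log R) R hR1 hN hQ le_rfl le_rfl le_rfl le_rfl hl2 hl)))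
  refine EDT_s2 (mP.restrict (PW F 2 R)) _ _ _ _ _ bb0.2.aestronglyMeasurable (by positivity) hQN ?_ hcore bb0.1
  refine (ae_restrict_iff' (EDT_set Γ F R hΓ hF).1).2 (Eventually.of_forall fun p hp => ?_)
  have hpG : p ∈ GW 2 R := ⟨mem_univ _, hp.2⟩
  have hb := hVFM1 R 0 Γ D hRM1 hD (by simpa using hts 0 h0t)
  have hRG : EDT_RF D R 0 (fG D ch A.z R) :=
    QDT_rf hNFR Γ F k hk B D K1 _ _ R 0 _ hDm hD p1 q4 (Real.rpow_nonneg hR0.le _) (hm1 _ q4) hR2 hR1 hb.2.2.1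
  have e0 : EDT_Y D ch A R f φ 0 p = aF D R 0 (pv D ch A.z A.z1 R 0) φ p := by
    unfold EDT_Y thP
    simp
  have e1 : aF D R 0 (fG D ch A.z R) φ p = QF D.U ch A.z R φ p := by
    unfold aF QF
    rw [indicator_of_mem hpG]
    simp only [hb.2.2.2.2]
  have e2 : aF D R 0 (fun p v => pv D ch A.z A.z1 R 0 p v - fG D ch A.z R p v) φ p = EDT_Y D ch A R f φ 0 p - QF D.U ch A.z R φ p := by
    rw [EDT_sub D R 0 _ _ (hRFt 0 h0t) hRG φ hφ.cont p, e0, e1]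
  rw [e2]
  have e3 : EDT_Y D ch A R f φ t p - QF D.U ch A.z R φ p = Complex.exp (-(((thP D f R t p : ℝ) : ℂ) * Complex.I)) *
      (aF D R t (pv D ch A.z A.z1 R t) φ p - Complex.exp (((thP D f R t p : ℝ) : ℂ) * Complex.I) * QF D.U ch A.z R φ p) := by
    unfold EDT_Y
    rw [mul_sub, ← mul_assoc (Complex.exp _) (Complex.exp _), ← Complex.exp_add, neg_add_cancel, Complex.exp_zero, one_mul]
  have e4 : ‖aF D R t (pv D ch A.z A.z1 R t) φ p - Complex.exp (((thP D f R t p : ℝ) : ℂ) * Complex.I) * QF D.U ch A.z R φ p‖ =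
      ‖EDT_Y D ch A R f φ t p - QF D.U ch A.z R φ p‖ := by
    rw [e3, norm_mul, EDT_expn, one_mul]
  rw [e4, ← sub_add_sub_cancel (EDT_Y D ch A R f φ t p) (EDT_Y D ch A R f φ 0 p) (QF D.U ch A.z R φ p)]
  exact norm_add_le _ _

end Pool.Agent.VN
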