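import Pool.Agent.helper55.VN.SpecD
import Pool.Agent.helper55.VN.QDT
import Pool.Agent.helper55.VQ.EDT

/-!
# Row vn:QDV (MP_07c750): time averages along the flow, long times, for negatively curved metrics
-/

set_option autoImplicit false

open scoped MatrixGroups ContDiff Topology UpperHalfPlane ComplexConjugate ENNReal
open UpperHalfPlane MeasureTheory Filter Set

namespace Pool.Agent.VN

open Pool.Agent.RS Pool.Agent.VQ
open Pool.Agent.RPQ (CEig mean VV IsOp)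

/-- the average over the `k`-th small step -/
noncomputable def QDV_G (D : Dyn) (h : ℍ → ℝ) (σ : ℝ) (k : ℕ) (p : SL(2, ℝ) × ℝ) : ℝ :=
  σ⁻¹ * ∫ s in (k * σ)..((k + 1 : ℕ) * σ), h (D.fl p.2 s p.1 • I)

/-- the function along an orbit is continuous -/
theorem QDV_c (Γ : Subgroup SL(2, ℝ)) (κ : ℝ) (B : ℕ → ℝ) (D : Dyn) (hD : OKN Γ κ B D) (h : ℍ → ℝ) (hh : Continuous h)
    (p : SL(2, ℝ) × ℝ) (hp : |p.2| ≤ κ) : Continuous fun s : ℝ => h (D.fl p.2 s p.1 • I) := by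
  have h1 : Continuous fun s : ℝ => D.fl p.2 s p.1 :=
    hD.cfl.comp_continuous (f := fun s : ℝ => ((p.2, s, p.1) : ℝ × ℝ × SL(2, ℝ))) (by fun_prop) (fun z => hp)
  exact hh.comp (h1.smul continuous_const)

/-- the average over the time `m σ` -/
theorem QDV_sum (D : Dyn) (h : ℍ → ℝ) (σ : ℝ) (m : ℕ) (p : SL(2, ℝ) × ℝ) (hc : Continuous fun s : ℝ => h (D.fl p.2 s p.1 • I)) :
    avP D h (m * σ) p = (m : ℝ)⁻¹ * ∑ k ∈ Finset.range m, QDV_G D h σ k p := by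
  unfold avP QDV_G
  rw [← Finset.mul_sum, ← mul_assoc, ← mul_inv]
  congr 1
  have h1 := intervalIntegral.sum_integral_adjacent_intervals (f := fun s => h (D.fl p.2 s p.1 • I)) (μ := volume) (a := fun k : ℕ => (k : ℝ) * σ) (n := m)
    (fun k _ => hc.intervalIntegrable _ _)
  simp only [Nat.cast_zero, zero_mul] at h1
  exact h1.symm

/-- the averages are moved by the flow -/
theorem QDV_sh (Γ : Subgroup SL(2, ℝ)) (κ : ℝ) (B : ℕ → ℝ) (D : Dyn) (hD : OKN Γ κ B D) (hκ : 0 < κ) (hNHA : NHA_stmt) (h : ℍ → ℝ) (σ : ℝ) (k : ℕ)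
    (p : SL(2, ℝ) × ℝ) (hp : |p.2| ≤ κ) : QDV_G D h σ k (D.ph σ p) = QDV_G D h σ (k + 1) p := by
  unfold QDV_G
  congr 1
  have h1 : ∀ s : ℝ, h (D.fl (D.ph σ p).2 s (D.ph σ p).1 • I) = h (D.fl p.2 (s + σ) p.1 • I) := by
    intro s
    show h (D.fl p.2 s (D.fl p.2 σ p.1) • I) = _
    obtain ⟨C, -, hN⟩ := hNHA κ hκ
    rw [(hN Γ B D hD p.2 s σ hp p.1).1]
  simp only [h1]
  rw [intervalIntegral.integral_comp_add_right (f := fun s => h (D.fl p.2 s p.1 • I)) σ]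
  congr 1
  · push_cast
    ring
  · push_cast
    ring

/-- bounds of the averages -/
theorem QDV_bd (D : Dyn) (h : ℍ → ℝ) (σ : ℝ) (hσ : 0 < σ) (hb : ∀ z, 0 ≤ h z ∧ h z ≤ 1) (k : ℕ) (p : SL(2, ℝ) × ℝ) : |QDV_G D h σ k p| ≤ 1 := by
  unfold QDV_G
  have h1 : ‖∫ s in (k * σ)..((k + 1 : ℕ) * σ), h (D.fl p.2 s p.1 • I)‖ ≤ 1 * |((k + 1 : ℕ) : ℝ) * σ - k * σ| :=
    intervalIntegral.norm_integral_le_of_norm_le_const fun s _ => by
      rw [Real.norm_eq_abs, abs_le]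
      exact ⟨by linarith [(hb (D.fl p.2 s p.1 • I)).1], (hb _).2⟩
  have h2 : ((k + 1 : ℕ) : ℝ) * σ - k * σ = σ := by push_cast; ring
  rw [h2, one_mul, abs_of_pos hσ, Real.norm_eq_abs] at h1
  rw [abs_mul, abs_of_pos (inv_pos.2 hσ), inv_mul_le_iff₀ hσ, mul_one]
  exact h1

/-- neighbours -/
theorem QDV_nb (D : Dyn) (h : ℍ → ℝ) (σ w : ℝ) (hσ : 0 < σ) (k : ℕ) (p q : SL(2, ℝ) × ℝ) (hcp : Continuous fun s : ℝ => h (D.fl p.2 s p.1 • I))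
    (hcq : Continuous fun s : ℝ => h (D.fl q.2 s q.1 • I)) (hw : ∀ s ∈ Icc 0 (((k + 1 : ℕ) : ℝ) * σ), |h (D.fl p.2 s p.1 • I) - h (D.fl q.2 s q.1 • I)| ≤ w) :
    |QDV_G D h σ k p - QDV_G D h σ k q| ≤ w := by
  unfold QDV_G
  rw [← mul_sub, ← intervalIntegral.integral_sub (hcp.intervalIntegrable _ _) (hcq.intervalIntegrable _ _)]
  have hk : (k : ℝ) * σ ≤ ((k + 1 : ℕ) : ℝ) * σ := by push_cast; nlinarith
  have h1 : ‖∫ s in (k * σ)..((k + 1 : ℕ) * σ), (h (D.fl p.2 s p.1 • I) - h (D.fl q.2 s q.1 • I))‖ ≤ w * |((k + 1 : ℕ) : ℝ) * σ - k * σ| :=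
    intervalIntegral.norm_integral_le_of_norm_le_const fun s hs => by
      rw [uIoc_of_le hk] at hs
      exact hw s ⟨by have : 0 ≤ (k : ℝ) * σ := by positivity
                     linarith [hs.1], hs.2⟩
  have h2 : ((k + 1 : ℕ) : ℝ) * σ - k * σ = σ := by push_cast; ring
  rw [h2, abs_of_pos hσ, Real.norm_eq_abs] at h1
  rw [abs_mul, abs_of_pos (inv_pos.2 hσ), inv_mul_le_iff₀ hσ, mul_comm σ w]
  exact h1

/-- measurability of the averages on the window -/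
theorem QDV_ms (Γ : Subgroup SL(2, ℝ)) (κ : ℝ) (B : ℕ → ℝ) (D : Dyn) (hD : OKN Γ κ B D) (hκ : 0 < κ) (hPU : PV Γ κ D.U) (h : ℍ → ℝ) (hh : QU.Inv Γ h) (σ R : ℝ) (hR : 0 < R)
    (hR2 : 2 * R ^ (-(1 / 4) : ℝ) ≤ κ) (k : ℕ) (hth : ∀ (f : ℍ → ℝ) (t : ℝ), QU.Inv Γ f → Measurable (thP D f R t)) :
    Measurable ((GW 2 R).indicator (QDV_G D h σ k)) := by
  have hU0 : ∀ z, 0 < D.U z := fun z => hκ.trans_le (hPU.bd z).1
  have hf : QU.Inv Γ (fun z => h z / D.U z) := by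
    refine ⟨hh.1.div hPU.inv.1 fun z => (hU0 z).ne', fun γ z => ?_⟩
    show h (γ • z) / D.U (γ • z) = _
    rw [hh.2 γ z, hPU.inv.2 γ z]
  have hGm : MeasurableSet (GW 2 R) := MeasurableSet.univ.prod measurableSet_Icc
  have e : (GW 2 R).indicator (QDV_G D h σ k) = (GW 2 R).indicator (fun p => σ⁻¹ * (2 / R) *
      (thP D (fun z => h z / D.U z) R ((k + 1 : ℕ) * σ) p - thP D (fun z => h z / D.U z) R (k * σ) p)) := by
    refine indicator_congr fun p hp => ?_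
    have hp8 : |p.2| ≤ κ := (abs_le.2 ⟨hp.2.1, hp.2.2⟩).trans hR2
    have hc := QDV_c Γ κ B D hD h hh.1 p hp8
    have e1 : ∀ z, D.U z * (h z / D.U z) = h z := fun z => by
      have := (hU0 z).ne'
      field_simp
    unfold QDV_G thP
    simp only [e1]
    rw [← mul_sub, intervalIntegral.integral_interval_sub_left (hc.intervalIntegrable _ _) (hc.intervalIntegrable _ _)]
    field_simp
  rw [e]
  exact (measurable_const.mul ((hth _ _ hf).sub (hth _ _ hf))).indicator hGm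

/-- the averages are slowly varying -/
theorem QDV_sv (Γ : Subgroup SL(2, ℝ)) (κ : ℝ) (B : ℕ → ℝ) (D : Dyn) (hD : OKN Γ κ B D) (hκ : 0 < κ) (hNHA : NHA_stmt) (hPU : PV Γ κ D.U) (h : ℍ → ℝ) (hh : QU.Inv Γ h)
    (hb : ∀ z, 0 ≤ h z ∧ h z ≤ 1) (L : ℝ) (hL : 0 ≤ L) (hl : ∀ z w : ℍ, |h z - h w| ≤ L * dist z w) (A : Prm) (R : ℝ) (hR : 0 < R)
    (hR2 : 2 * R ^ (-(1 / 4) : ℝ) ≤ κ) (hσ : 0 < A.sg R) (k : ℕ) (hk : k < A.m) (hth : ∀ (f : ℍ → ℝ) (t : ℝ), QU.Inv Γ f → Measurable (thP D f R t))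
    (hG : ∀ (t : ℝ) (p q : SL(2, ℝ) × ℝ), p ∈ GW 2 R → q ∈ GW 2 R → Nb (A.r R) p q → 0 ≤ t → t ≤ A.tu R → dist (D.fl p.2 t p.1 • I : ℍ) (D.fl q.2 t q.1 • I) ≤ R ^ (-(1 / 3) : ℝ)) :
    SV Γ A R (L * R ^ (-(1 / 3) : ℝ)) (fun p => (((GW 2 R).indicator (QDV_G D h (A.sg R) k) p : ℝ) : ℂ)) := by
  have hp8 : ∀ p ∈ GW 2 R, |p.2| ≤ κ := fun p hp => (abs_le.2 ⟨hp.2.1, hp.2.2⟩).trans hR2
  refine ⟨Complex.measurable_ofReal.comp (QDV_ms Γ κ B D hD hκ hPU h hh _ R hR hR2 k hth), fun γ p => ?_, fun p => ?_, fun p q hp hq hn => ?_⟩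
  · by_cases hp : p ∈ GW 2 R
    · have hp' : ((γ : SL(2, ℝ)) * p.1, p.2) ∈ GW 2 R := ⟨mem_univ _, hp.2⟩
      rw [indicator_of_mem hp, indicator_of_mem hp']
      congr 1
      unfold QDV_G
      congr 1
      refine intervalIntegral.integral_congr fun s _ => ?_
      show h (D.fl p.2 s ((γ : SL(2, ℝ)) * p.1) • I) = h (D.fl p.2 s p.1 • I)
      obtain ⟨C, -, hN⟩ := hNHA κ hκ
      rw [(hN Γ B D hD p.2 0 s (hp8 p hp) p.1).2.1 γ, mul_smul]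
      exact hh.2 γ _
    · have hp' : ((γ : SL(2, ℝ)) * p.1, p.2) ∉ GW 2 R := fun h' => hp ⟨mem_univ _, h'.2⟩
      rw [indicator_of_notMem hp, indicator_of_notMem hp']
  · rw [Complex.norm_real, Real.norm_eq_abs]
    by_cases hp : p ∈ GW 2 R
    · rw [indicator_of_mem hp]
      exact QDV_bd D h _ hσ hb k p
    · rw [indicator_of_notMem hp, abs_zero]
      exact zero_le_one
  · rw [← Complex.ofReal_sub, Complex.norm_real, Real.norm_eq_abs, indicator_of_mem hp, indicator_of_mem hq]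
    refine QDV_nb D h _ _ hσ k p q (QDV_c Γ κ B D hD h hh.1 p (hp8 p hp)) (QDV_c Γ κ B D hD h hh.1 q (hp8 q hq)) fun s hs => ?_
    refine (hl _ _).trans (mul_le_mul_of_nonneg_left (hG s p q hp hq hn hs.1 (hs.2.trans ?_)) hL)
    unfold Prm.tu
    have : ((k + 1 : ℕ) : ℝ) ≤ A.m := by exact_mod_cast hk
    exact mul_le_mul_of_nonneg_right this hσ.le

/-- the first average and Fubini -/
theorem QDV_fub (Γ : Subgroup SL(2, ℝ)) (F : Set ℍ) (hΓ : QU.SurfaceGroup Γ) (hF : QU.NiceDom Γ F) (κ : ℝ) (B : ℕ → ℝ) (D : Dyn) (hD : OKN Γ κ B D) (h : ℍ → ℝ) (hh : Continuous h)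
    (hb : ∀ z, 0 ≤ h z ∧ h z ≤ 1) (σ R : ℝ) (hσ : 0 < σ) (hR2 : 2 * R ^ (-(1 / 4) : ℝ) ≤ κ) (Φ : SL(2, ℝ) × ℝ → ℂ) (hΦ : FP Γ F Φ) (a ε : ℝ)
    (hs : ∀ s ∈ Icc 0 σ, |(∫ p in PW F 2 R, h (D.fl p.2 s p.1 • I) * ‖Φ p‖ ^ 2 ∂mP) - a| ≤ ε) :
    |(∫ p in PW F 2 R, QDV_G D h σ 0 p * ‖Φ p‖ ^ 2 ∂mP) - a| ≤ ε := by
  have : SecondCountableTopology SL(2, ℝ) := A_GLC.2.1
  have hsg : SigmaFinite mG := A_GMG.2.2.1
  have hsf : SFinite mP := by unfold mP; infer_instance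
  obtain ⟨hS, hfin, K, -, hK1, hK2⟩ := EDT_set Γ F R hΓ hF
  have hSG : PW F 2 R ⊆ GW 2 R := hK1.trans hK2
  have hfm : IsFiniteMeasure (mP.restrict (PW F 2 R)) := ⟨by rwa [Measure.restrict_apply_univ]⟩
  obtain ⟨b, hbΦ⟩ := hΦ.bdd
  have hfl := QDT_flc Γ κ B D hD R hR2 h hh (Ioc 0 σ)
  have hm : AEStronglyMeasurable (fun x : (SL(2, ℝ) × ℝ) × ℝ => h (D.fl x.1.2 x.2 x.1.1 • I)) ((mP.restrict (PW F 2 R)).prod (volume.restrict (Ioc 0 σ))) := by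
    rw [Measure.prod_restrict]
    exact (hfl.mono (prod_mono hSG subset_rfl)).aestronglyMeasurable (hS.prod measurableSet_Ioc)
  have hm2 : AEStronglyMeasurable (fun x : (SL(2, ℝ) × ℝ) × ℝ => ‖Φ x.1‖ ^ 2) ((mP.restrict (PW F 2 R)).prod (volume.restrict (Ioc 0 σ))) :=
    ((hΦ.meas.comp measurable_fst).norm.pow_const 2).aestronglyMeasurable
  have hint : Integrable (fun x : (SL(2, ℝ) × ℝ) × ℝ => h (D.fl x.1.2 x.2 x.1.1 • I) * ‖Φ x.1‖ ^ 2) ((mP.restrict (PW F 2 R)).prod (volume.restrict (Ioc 0 σ))) := by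
    refine Integrable.of_bound (hm.mul hm2) (b ^ 2) (Eventually.of_forall fun x => ?_)
    rw [norm_mul, Real.norm_of_nonneg (hb _).1, Real.norm_of_nonneg (by positivity)]
    have h1 : ‖Φ x.1‖ ^ 2 ≤ b ^ 2 := pow_le_pow_left₀ (norm_nonneg _) (hbΦ x.1) 2
    have h2 := (hb (D.fl x.1.2 x.2 x.1.1 • I)).2
    have h3 := (hb (D.fl x.1.2 x.2 x.1.1 • I)).1
    calc h (D.fl x.1.2 x.2 x.1.1 • I) * ‖Φ x.1‖ ^ 2 ≤ 1 * ‖Φ x.1‖ ^ 2 := mul_le_mul_of_nonneg_right h2 (by positivity)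
      _ ≤ b ^ 2 := by rw [one_mul]; exact h1
  have hsw := integral_integral_swap (f := fun (p : SL(2, ℝ) × ℝ) (s : ℝ) => h (D.fl p.2 s p.1 • I) * ‖Φ p‖ ^ 2) hint
  have hki := hint.integral_prod_right
  have e1 : (∫ p in PW F 2 R, QDV_G D h σ 0 p * ‖Φ p‖ ^ 2 ∂mP) = σ⁻¹ * ∫ s in Ioc 0 σ, (∫ p in PW F 2 R, h (D.fl p.2 s p.1 • I) * ‖Φ p‖ ^ 2 ∂mP) := by
    rw [← hsw, ← integral_const_mul]
    congr 1
    funext p
    unfold QDV_G
    rw [integral_mul_const, ← mul_assoc]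
    congr 2
    have h1 : ((0 : ℕ) : ℝ) * σ = 0 := by simp
    have h2 : ((0 + 1 : ℕ) : ℝ) * σ = σ := by simp
    rw [h1, h2, intervalIntegral.integral_of_le hσ.le]
  have hv : (volume (Ioc 0 σ)).toReal = σ := by
    rw [Real.volume_Ioc, sub_zero, ENNReal.toReal_ofReal hσ.le]
  have e2 : (∫ p in PW F 2 R, QDV_G D h σ 0 p * ‖Φ p‖ ^ 2 ∂mP) - a = σ⁻¹ * ∫ s in Ioc 0 σ, ((∫ p in PW F 2 R, h (D.fl p.2 s p.1 • I) * ‖Φ p‖ ^ 2 ∂mP) - a) := by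
    rw [e1, integral_sub hki (integrable_const _), integral_const, mul_sub]
    congr 1
    rw [measureReal_def, Measure.restrict_apply_univ, hv, smul_eq_mul]
    field_simp
  have h5 : ‖∫ s in Ioc 0 σ, ((∫ p in PW F 2 R, h (D.fl p.2 s p.1 • I) * ‖Φ p‖ ^ 2 ∂mP) - a)‖ ≤ ε * (volume (Ioc 0 σ)).toReal := by
    refine norm_setIntegral_le_of_norm_le_const (by rw [Real.volume_Ioc]; exact ENNReal.ofReal_lt_top) fun s hs' => ?_
    rw [Real.norm_eq_abs]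
    exact hs s ⟨hs'.1.le, hs'.2⟩
  rw [hv, Real.norm_eq_abs] at h5
  rw [e2, abs_mul, abs_of_pos (inv_pos.2 hσ), inv_mul_le_iff₀ hσ, mul_comm σ ε]
  exact h5

/-- telescoping -/
theorem QDV_tel (J : ℕ → ℝ) (m : ℕ) (a ε ε' : ℝ) (hm : 1 ≤ m) (hε : 0 ≤ ε) (h0 : |J 0 - a| ≤ ε') (h1 : ∀ k, k < m → |J (k + 1) - J k| ≤ ε) :
    |(m : ℝ)⁻¹ * ∑ k ∈ Finset.range m, J k - a| ≤ m * ε + ε' := by
  have h2 : ∀ k, k ≤ m → |J k - J 0| ≤ k * ε := by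
    intro k
    induction k with
    | zero => intro _; simp
    | succ k ih =>
      intro hk
      have e1 := ih (by omega)
      have e2 := h1 k (by omega)
      have e3 : J (k + 1) - J 0 = (J (k + 1) - J k) + (J k - J 0) := by ring
      rw [e3]
      refine (abs_add_le _ _).trans ?_
      push_cast
      linarith
  have hm0 : (0 : ℝ) < m := by exact_mod_cast hm
  have e : (m : ℝ)⁻¹ * ∑ k ∈ Finset.range m, J k - a = (m : ℝ)⁻¹ * ∑ k ∈ Finset.range m, (J k - a) := by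
    rw [Finset.sum_sub_distrib, Finset.sum_const, Finset.card_range, nsmul_eq_mul]
    field_simp
  rw [e, abs_mul, abs_of_pos (inv_pos.2 hm0), inv_mul_le_iff₀ hm0]
  refine (Finset.abs_sum_le_sum_abs _ _).trans ?_
  refine (Finset.sum_le_sum (g := fun _ => (m : ℝ) * ε + ε') fun k hk => ?_).trans (le_of_eq (by rw [Finset.sum_const, Finset.card_range, nsmul_eq_mul]))
  have hk' := Finset.mem_range.1 hk
  have e3 : J k - a = (J k - J 0) + (J 0 - a) := by ring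
  rw [e3]
  refine (abs_add_le _ _).trans (add_le_add ((h2 k hk'.le).trans ?_) h0)
  exact mul_le_mul_of_nonneg_right (by exact_mod_cast hk'.le) hε

theorem QDV_proof (hQDI : QDI_stmt) (hQDS : QDS_stmt) (hQDG : QDG_stmt) (hQDW : QDW_stmt) (hNHA : NHA_stmt) (hNTN : NTN_stmt) (hNUB : NUB_stmt) : QDV_stmt := by
  intro κ hκ
  obtain ⟨CI, hCI1, hEDI⟩ := hQDI κ hκ
  obtain ⟨CS, hCS1, hEDS⟩ := hQDS κ hκ
  obtain ⟨CG, hCG1, hEDG⟩ := hQDG κ hκ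
  obtain ⟨CW, hCW1, hEDW⟩ := hQDW κ hκ
  obtain ⟨CT, hCT1, hVTN⟩ := hNTN κ hκ
  obtain ⟨CU, -, hNUB⟩ := hNUB κ hκ
  refine ⟨CI + CS + CG + CW + CT, by linarith, ?_⟩
  intro ch B A L hch hA hL
  obtain ⟨RI, -, hEDI⟩ := hEDI ch B A hch (Adm_mono hA hCI1 (by linarith))
  obtain ⟨RS, -, hEDS⟩ := hEDS ch B A hch (Adm_mono hA hCS1 (by linarith))
  obtain ⟨RG, -, hEDG⟩ := hEDG B A (Adm_mono hA hCG1 (by linarith))
  obtain ⟨RW, -, hEDW⟩ := hEDW ch B A hch (Adm_mono hA hCW1 (by linarith))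
  obtain ⟨RT, -, hVTN⟩ := hVTN ch B A hch (Adm_mono hA hCT1 (by linarith))
  have hm0 : (0 : ℝ) < A.m := by exact_mod_cast hA.m
  -- asymptotics
  have ev1 : ∀ᶠ R : ℝ in atTop, A.m * (L + 1) + (1 + L) ≤ R ^ (1 / 1200 : ℝ) :=
    (tendsto_rpow_atTop (by norm_num : (0 : ℝ) < 1 / 1200)).eventually_ge_atTop _
  have ev2 : ∀ᶠ R : ℝ in atTop, R ^ (-(1 / 4) : ℝ) ≤ κ / 2 := by
    have h := tendsto_rpow_neg_atTop (by norm_num : (0 : ℝ) < 1 / 4)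
    exact h.eventually (ge_mem_nhds (by linarith : (0 : ℝ) < κ / 2))
  obtain ⟨Re, hRe⟩ := eventually_atTop.1 (ev1.and (ev2.and ((eventually_ge_atTop RI).and ((eventually_ge_atTop RS).and ((eventually_ge_atTop RG).and
    ((eventually_ge_atTop RW).and ((eventually_ge_atTop RT).and (eventually_ge_atTop 2))))))))
  refine ⟨max 1 Re, le_max_left _ _, ?_⟩
  intro R Γ F D f F' μ φ h hR hΓ hF hD hE hh hb hl
  obtain ⟨n1, n2, hRI, hRS, hRG, hRW, hRT, hR2'⟩ := hRe R ((le_max_right _ _).trans hR)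
  have hR1 : 1 ≤ R := (le_max_left _ _).trans hR
  have hR0 : 0 < R := by linarith
  have hDm : Dm Γ F := Or.inl ⟨hΓ, hF⟩
  have hR2 : 2 * R ^ (-(1 / 4) : ℝ) ≤ κ := by linarith
  have hN : 0 ≤ nn F φ := integral_nonneg fun z => by positivity
  have hσ : 0 < A.sg R := mul_pos hA.e3 (Real.log_pos (by linarith))
  have hPU : PV Γ κ D.U := (hNUB Γ B D.U hD.pot).1
  obtain ⟨hΦ, -, -, -, -⟩ := hEDW R Γ F D f F' μ φ hRW hΓ hF hD hE
  have hth : ∀ (f : ℍ → ℝ) (t : ℝ), QU.Inv Γ f → Measurable (thP D f R t) := fun f t hf => ((hVTN R Γ F D hRT hDm hD).2 f t hf).1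
  have hGG := fun (t : ℝ) (p q : SL(2, ℝ) × ℝ) => hEDG R t Γ D p q hRG hD
  obtain ⟨hS, hfin, K, -, hK1, hK2⟩ := EDT_set Γ F R hΓ hF
  have hSG : PW F 2 R ⊆ GW 2 R := hK1.trans hK2
  have hp8 : ∀ p ∈ GW 2 R, |p.2| ≤ κ := fun p hp => (abs_le.2 ⟨hp.2.1, hp.2.2⟩).trans hR2
  have hfm : IsFiniteMeasure (mP.restrict (PW F 2 R)) := ⟨by rwa [Measure.restrict_apply_univ]⟩
  obtain ⟨b, hbΦ⟩ := hΦ.bdd
  set J : ℕ → ℝ := fun k => ∫ p in PW F 2 R, QDV_G D h (A.sg R) k p * ‖QF D.U ch A.z R φ p‖ ^ 2 ∂mP with hJ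
  have hJi : ∀ k, IntegrableOn (fun p => QDV_G D h (A.sg R) k p * ‖QF D.U ch A.z R φ p‖ ^ 2) (PW F 2 R) mP := by
    intro k
    have h1 : IntegrableOn (fun p => (GW 2 R).indicator (QDV_G D h (A.sg R) k) p * ‖QF D.U ch A.z R φ p‖ ^ 2) (PW F 2 R) mP := by
      refine Integrable.of_bound ((QDV_ms Γ κ B D hD hκ hPU h hh _ R hR0 hR2 k hth).mul (hΦ.meas.norm.pow_const 2)).aestronglyMeasurable (b ^ 2) (Eventually.of_forall fun p => ?_)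
      rw [norm_mul, Real.norm_eq_abs, Real.norm_of_nonneg (by positivity : 0 ≤ ‖QF D.U ch A.z R φ p‖ ^ 2)]
      have h2 : |(GW 2 R).indicator (QDV_G D h (A.sg R) k) p| ≤ 1 := by
        by_cases hp : p ∈ GW 2 R
        · rw [indicator_of_mem hp]
          exact QDV_bd D h _ hσ hb k p
        · rw [indicator_of_notMem hp, abs_zero]
          exact zero_le_one
      have h3 : ‖QF D.U ch A.z R φ p‖ ^ 2 ≤ b ^ 2 := pow_le_pow_left₀ (norm_nonneg _) (hbΦ p) 2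
      calc |(GW 2 R).indicator (QDV_G D h (A.sg R) k) p| * ‖QF D.U ch A.z R φ p‖ ^ 2 ≤ 1 * ‖QF D.U ch A.z R φ p‖ ^ 2 := mul_le_mul_of_nonneg_right h2 (by positivity)
        _ ≤ b ^ 2 := by rw [one_mul]; exact h3
    refine h1.congr_fun (fun p hp => ?_) hS
    simp only [indicator_of_mem (hSG hp)]
  -- the average
  have hav : (∫ p in PW F 2 R, avP D h (A.tu R) p * ‖QF D.U ch A.z R φ p‖ ^ 2 ∂mP) = (A.m : ℝ)⁻¹ * ∑ k ∈ Finset.range A.m, J k := by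
    rw [hJ]
    simp only []
    rw [← integral_finsetSum _ (fun k _ => hJi k), ← integral_const_mul]
    refine setIntegral_congr_fun hS fun p hp => ?_
    unfold Prm.tu
    rw [QDV_sum D h (A.sg R) A.m p (QDV_c Γ κ B D hD h hh.1 p (hp8 p (hSG hp))), mul_assoc, Finset.sum_mul]
  -- one step
  have hst : ∀ k, k < A.m → |J (k + 1) - J k| ≤ (L * R ^ (-(1 / 3) : ℝ) * R ^ (1 / 200 : ℝ) + R ^ (-(1 / 300) : ℝ)) * nn F φ := by
    intro k hk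
    have hsv := QDV_sv Γ κ B D hD hκ hNHA hPU h hh hb L hL hl A R hR0 hR2 hσ k hk hth hGG
    have h1 := hEDI R (L * R ^ (-(1 / 3) : ℝ)) Γ F D f F' μ φ ((GW 2 R).indicator (QDV_G D h (A.sg R) k)) hRI hΓ hF hD hE
      (mul_nonneg hL (Real.rpow_nonneg hR0.le _)) hsv
    have e1 : (∫ p in PW F 2 R, (GW 2 R).indicator (QDV_G D h (A.sg R) k) (D.ph (A.sg R) p) * ‖QF D.U ch A.z R φ p‖ ^ 2 ∂mP) = J (k + 1) := by
      refine setIntegral_congr_fun hS fun p hp => ?_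
      have hp' : D.ph (A.sg R) p ∈ GW 2 R := ⟨mem_univ _, (hSG hp).2⟩
      rw [indicator_of_mem hp', QDV_sh Γ κ B D hD hκ hNHA h _ k p (hp8 p (hSG hp))]
    have e2 : (∫ p in PW F 2 R, (GW 2 R).indicator (QDV_G D h (A.sg R) k) p * ‖QF D.U ch A.z R φ p‖ ^ 2 ∂mP) = J k := by
      refine setIntegral_congr_fun hS fun p hp => ?_
      rw [indicator_of_mem (hSG hp)]
    rw [e1, e2] at h1
    exact h1
  have h0 := QDV_fub Γ F hΓ hF κ B D hD h hh.1 hb (A.sg R) R hσ hR2 _ hΦ _ _ (fun s hs =>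
    hEDS R s L Γ F D f F' μ φ h hRS hΓ hF hD hE hh hb hL hl hs.1 hs.2)
  have ht := QDV_tel J A.m _ _ _ hA.m (by have := Real.rpow_nonneg hR0.le; positivity) h0 hst
  rw [hav]
  refine ht.trans ?_
  -- numbers
  have r1 : L * R ^ (-(1 / 3) : ℝ) * R ^ (1 / 200 : ℝ) ≤ L * R ^ (-(1 / 300) : ℝ) := by
    rw [mul_assoc, ← Real.rpow_add hR0]
    exact mul_le_mul_of_nonneg_left (Real.rpow_le_rpow_of_exponent_le hR1 (by norm_num)) hL
  have r2 : R ^ (-(1 / 250) : ℝ) ≤ R ^ (-(1 / 300) : ℝ) := Real.rpow_le_rpow_of_exponent_le hR1 (by norm_num)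
  have r3 : R ^ (1 / 1200 : ℝ) * R ^ (-(1 / 300) : ℝ) = R ^ (-(1 / 400) : ℝ) := by
    rw [← Real.rpow_add hR0]
    norm_num
  have r4 : 0 ≤ R ^ (-(1 / 300) : ℝ) := Real.rpow_nonneg hR0.le _
  calc (A.m : ℝ) * ((L * R ^ (-(1 / 3) : ℝ) * R ^ (1 / 200 : ℝ) + R ^ (-(1 / 300) : ℝ)) * nn F φ) + (1 + L) * R ^ (-(1 / 250) : ℝ) * nn F φ
      ≤ (A.m : ℝ) * ((L * R ^ (-(1 / 300) : ℝ) + R ^ (-(1 / 300) : ℝ)) * nn F φ) + (1 + L) * R ^ (-(1 / 300) : ℝ) * nn F φ := by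
        gcongr
    _ = (A.m * (L + 1) + (1 + L)) * (R ^ (-(1 / 300) : ℝ) * nn F φ) := by ring
    _ ≤ R ^ (1 / 1200 : ℝ) * (R ^ (-(1 / 300) : ℝ) * nn F φ) := mul_le_mul_of_nonneg_right n1 (mul_nonneg r4 hN)
    _ = _ := by rw [← mul_assoc, r3]

end Pool.Agent.VN
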