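import Pool.Agent.helper5.VN.QDH
import Pool.Agent.helper23.VN.QDL
import Pool.Agent.helper34.VN.QDG
import Pool.Agent.helper55.VN.QDT
import Pool.Agent.helper91.VN.QD1
import Pool.Agent.helper29.VN.QDW
import Pool.Agent.helper77.VN.QDA
import Pool.Agent.helper78.VN.QDF
import Pool.Agent.helper29.VN.QDD
import Pool.Agent.helper5.VN.QDY
import Pool.Agent.helper22.VN.QDC
import Pool.Agent.helper68.VN.QDM
import Pool.Agent.helper22.VQ.EDZ
import Pool.Agent.helper33.VQ.EAI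
import Pool.Agent.helper87.VN.QD3
import Pool.Agent.helper77.VN.QDI
import Pool.Agent.helper77.VN.QDS
import Pool.Agent.helper87.VN.QD8
import Pool.Agent.helper55.VN.QDV

/-!
# Project VN (MP_07c750), block 2d: all rows together
-/

set_option autoImplicit false

open scoped MatrixGroups ContDiff Topology UpperHalfPlane ComplexConjugate ENNReal
open UpperHalfPlane MeasureTheory Filter Set

namespace Pool.Agent.VN

open Pool.Agent.RS Pool.Agent.VQ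
open Pool.Agent.RPQ (CEig mean VV IsOp)

/-- the rows of blocks 1, 2a, 2b, 3 and FL which are used -/
structure QDin : Prop where
  NIS : NIS_stmt
  NEL : NEL_stmt
  NQA : NQA_stmt
  NQS : NQS_stmt
  NUB : NUB_stmt
  VCD : VCD_stmt
  VCM : VCM_stmt
  VSH : VSH_stmt
  VDM : VDM_stmt
  NFM : NFM_stmt
  NFR : NFR_stmt
  NFB : NFB_stmt
  NSA : NSA_stmt
  ND0 : ND0_stmt
  NTS : NTS_stmt
  NTN : NTN_stmt
  NUM : NUM_stmt
  NUS : NUS_stmt
  VBO : VBO_stmt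
  NRM : NRM_stmt
  NPR : NPR_stmt
  NHM : NHM_stmt
  NHA : NHA_stmt
  NHG : NHG_stmt
  KPZ : KPZ_stmt
  PSC : PSC_stmt

theorem C_QDL (h : QDin) : QDL_stmt := QDL_proof h.NUB h.VCD
theorem C_QDW (h : QDin) : QDW_stmt := QDW_proof QDH_proof h.NIS h.NEL h.NQA h.NQS h.NUB
theorem C_QDA (h : QDin) : QDA_stmt := QDA_proof h.VSH h.VDM h.NFM h.NFR h.NHM h.VCM h.VCD
theorem C_QDF (h : QDin) : QDF_stmt := QDF_proof (C_QDA h) h.NFM h.NFR h.VCD
theorem C_QDD (h : QDin) : QDD_stmt := QDD_proof h.NRM h.NPR h.VCD h.NHA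
theorem C_QDT (h : QDin) : QDT_stmt := QDT_proof (C_QDD h) (C_QDF h) QDH_proof (C_QDL h) h.NSA h.NFB h.NFM h.ND0 h.NFR h.NUB h.NHA
theorem C_QD1 (h : QDin) : QD1_stmt := QD1_proof h.NTS (C_QDW h) (C_QDT h) QDH_proof h.NSA h.NQA h.NQS h.NFM h.NFR h.NUB h.NUM h.NTN
theorem C_QDG (h : QDin) : QDG_stmt := QDG_proof h.NHG h.VBO
theorem C_QDY (h : QDin) : QDY_stmt := QDY_proof (C_QDG h) (C_QDL h) h.NHA
theorem C_QDC (h : QDin) : QDC_stmt := QDC_proof h.NUS h.NUM h.VSH h.VDM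
theorem C_QDM (h : QDin) : QDM_stmt := QDM_proof (C_QD1 h) (C_QDC h) (C_QDY h) (C_QDW h) h.NTS h.NTN h.NUM h.VDM
theorem C_EDZ (h : QDin) : EDZ_stmt := EDZ_proof h.KPZ h.PSC RS.A_GMG
theorem C_QDI (h : QDin) : QDI_stmt := QDI_proof EAI_proof (C_QD1 h) (C_QDC h) (C_QDW h) h.NTS h.NTN h.NUM
theorem C_QDS (h : QDin) : QDS_stmt := QDS_proof (C_QDT h) (C_QDF h) (C_QDW h) h.NSA h.NFR h.NFM h.NUB h.NHA QDH_proof

/-- **(I3N)** -/
theorem C_I3N (h : QDin) : I3N_stmt := QD3_proof (C_QDM h) (C_QDW h) (C_EDZ h) h.NTN h.NUM h.VDM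

/-- **(I8N)** from the last row QDV -/
theorem C_I8N (h : QDin) (hQDV : QDV_stmt) : I8N_stmt := QD8_proof hQDV (C_EDZ h)

theorem C_QDV (h : QDin) : QDV_stmt := QDV_proof (C_QDI h) (C_QDS h) (C_QDG h) (C_QDW h) h.NHA h.NTN h.NUB

/-- **(I8N)** -/
theorem C_I8N' (h : QDin) : I8N_stmt := QD8_proof (C_QDV h) (C_EDZ h)

end Pool.Agent.VN
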