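import Pool.Agent.helper55.VQ.SpecD
import Pool.Agent.helper74.VN.SpecC
import Pool.Agent.helper11.VN.Spec3i

/-!
# Project VN (MP_07c750_an), block 2d for the class `PotN`: eigenfunctions, rows `vn:QDX`; final rows QD3 = I3N, QD8 = I8N

Row `QDX` is the row `EDX` of VQ (helper55/VQ/SpecD.lean: complete proof in the docstring of `EDX_stmt`; proof file `Pool/Agent/*/VQ/EDX.lean`) for the class `OKN Γ k B D`: COPY THE PROOF of `EDX` and change the hypotheses and the constants: everywhere `∀ k > 0, ∃ C ..` (apply the hypotheses to `k hk` first), `k` instead of `1/8`,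
`OKN Γ k B D` instead of `OKD Γ δ B D → δ ≤ 1/10`, the rows `VXX` become `NXX` (helper74/VN/SpecA.lean, SpecC.lean; `HFM, HFA, HFG` become `NHM, NHA, NHG`). The rows EAI, EDZ and `SV`, `Adm_mono`, `Adm_small` of VQ are used as they are (`VQ.EAI_stmt`, `VQ.EDZ_stmt`).
It is best to import the file of `EDX` and to use its general lemmas (they are in the namespace `Pool.Agent.VQ`); only the lemmas which mention `OKD`, `Fa`, `PU` or a `_stmt` have to be copied.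
Rows of the form `∀ k > 0, ..` with a hypothesis which needs `k ≤ 1/16` (NEL): `OKN` contains `k ≤ 1/16` (`kpos`), so start with `by_cases k ≤ 1/16`; otherwise there is no `OKN`.
RULES: file `Pool/Agent/<seat>/VN/QDX.lean`, `import Pool.Agent.helper55.VN.SpecD`, namespace `Pool.Agent.VN`, the `open` lines of this file, theorem `QDX_proof (h..) : QDX_stmt`, auxiliary lemmas prefixed `QDX_`. No `convert`, `congr!`, `native_decide`, no double quotes, no `private`.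
-/

open scoped MatrixGroups ContDiff Topology UpperHalfPlane ComplexConjugate ENNReal
open UpperHalfPlane MeasureTheory Filter Set

namespace Pool.Agent.VN

open Pool.Agent.RS Pool.Agent.VQ
open Pool.Agent.RPQ (CEig mean VV IsOp)

noncomputable section

/-- **Row QDH** (copy of EDH (helper57); short; pure). `R U/2 ≤ R/(2k)`: `‖Hop φ - (R/2) U f φ‖ ≤ (4/k) R^(-1/100) ‖φ‖ ≤ R^(-1/101) ‖φ‖`, `‖Hop φ‖ ≤ (1/(2k)) R^(1/100) ‖φ‖ + R^(-1/101) ‖φ‖ ≤ R^(1/90) ‖φ‖` for `R ≥ R0(k)`. `U > 0` is needed for `exp (log U) = U`. -/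
def QDH_stmt : Prop := ∀ k : ℝ, 0 < k → ∃ R0 : ℝ, 2 ≤ R0 ∧ ∀ (Γ : Subgroup SL(2, ℝ)) (F : Set ℍ) (U : ℍ → ℝ) (R : ℝ) (f F' : ℍ → ℝ) (μ : ℝ) (φ : ℍ → ℂ), R0 ≤ R → QU.SurfaceGroup Γ → QU.NiceDom Γ F → PV Γ k U → EgT Γ U R f F' μ φ →
  FH Γ F φ ∧ QU.CD 2 φ ∧ FH Γ F (Hop U R φ) ∧ (∀ z, ‖Hop U R φ z - ((R / 2 * (U z * f z) : ℝ) : ℂ) * φ z‖ ≤ R ^ (-(1 / 101) : ℝ) * ‖φ z‖) ∧
  ∀ z, ‖Hop U R φ z‖ ≤ R ^ (1 / 90 : ℝ) * ‖φ z‖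

/-- **Row QDL** (copy of EDL (helper57); short; from NUB; VQ: VCD). With the constant `C` of NUB: `|U z - U w| ≤ 2 C dist z w` (`dist ≤ 1`: `|Ug U g v - Ug U g 0| ≤ C ‖v‖ ≤ C dist`; `dist ≥ 1`: `|U| ≤ C`), `|U f (z) - U f (w)| ≤ (C + 2 C) R^(1/100 - 1) dist z w`, `|U f| ≤ C R^(1/100 - 1)`; `R ≥ R0(k)`. -/
def QDL_stmt : Prop := ∀ k : ℝ, 0 < k → ∃ R0 : ℝ, 1 ≤ R0 ∧ ∀ (Γ : Subgroup SL(2, ℝ)) (R : ℝ) (B : ℕ → ℝ) (D : Dyn) (f : ℍ → ℝ), R0 ≤ R → OKN Γ k B D → Sm Γ (R ^ (1 / 100 : ℝ)) R f →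
  QU.Inv Γ D.U ∧ (∀ z w : ℍ, |D.U z - D.U w| ≤ R ^ (1 / 200 : ℝ) * dist z w) ∧ QU.Inv Γ (fun z => D.U z * f z) ∧ (∀ z, |D.U z * f z| ≤ R ^ (-(98 / 100) : ℝ)) ∧
  ∀ z w : ℍ, |D.U z * f z - D.U w * f w| ≤ R ^ (-(98 / 100) : ℝ) * dist z w

/-- **Row QDW** (copy of EDW (helper91); short; from QDH, NIS, NEL, NQA, NQS, NUB). `nn (lap φ - R² U φ) = 4 R² nn (Hop φ) ≤ 4 R^(2 + 1/45) nn φ`, NEL (`E0 = 0`, `L = C` of NUB): `∫∫ E² |Φ|² ≤ R^(8z) (4 R^(-2 + 1/45) + R^(-1)) nn φ ≤ 5 R^(8z - 1) nn φ`. `Wi 1 R` is part of `{E > -U/2}` because `R^(-1/4) < k/2` for `R ≥ R0`. -/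
def QDW_stmt : Prop := ∀ k : ℝ, 0 < k → ∃ C : ℝ, 1 ≤ C ∧ ∀ (ch : ℝ → ℝ) (B : ℕ → ℝ) (A : Prm), CH ch → Adm C A → ∃ R0 : ℝ, 1 ≤ R0 ∧ ∀ (R : ℝ) (Γ : Subgroup SL(2, ℝ)) (F : Set ℍ) (D : Dyn) (f F' : ℍ → ℝ) (μ : ℝ) (φ : ℍ → ℂ), R0 ≤ R → QU.SurfaceGroup Γ → QU.NiceDom Γ F → OKN Γ k B D → EgT Γ D.U R f F' μ φ →
  FP Γ F (QF D.U ch A.z R φ) ∧ nn F (fun z => Qs D.U ch A.z R (QF D.U ch A.z R φ) z - φ z) ≤ R ^ (-(1 / 4) : ℝ) * nn F φ ∧ nP F 2 R (QF D.U ch A.z R φ) ≤ nn F φ ∧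
  (1 - R ^ (-(1 / 4) : ℝ)) * nn F φ ≤ nP F 1 R (QF D.U ch A.z R φ) ∧ nP F 1 R (QF D.U ch A.z R φ) ≤ nP F 2 R (QF D.U ch A.z R φ)

/-- **Row QDA** (copy of EDA (helper40); short; from NFM, NFR, NHM; VQ: VSH, VDM, VCM, VCD). Constants depending on `k` are absorbed by `R^(C z1)`. -/
def QDA_stmt : Prop := ∀ k : ℝ, 0 < k → ∃ C : ℝ, 1 ≤ C ∧ ∀ (ch : ℝ → ℝ) (B : ℕ → ℝ) (A : Prm), CH ch → Adm C A → ∃ R0 : ℝ, 1 ≤ R0 ∧ ∀ (R t : ℝ) (Γ : Subgroup SL(2, ℝ)) (F : Set ℍ) (D : Dyn) (φ : ℍ → ℂ), R0 ≤ R → Dm Γ F → OKN Γ k B D → FH Γ F φ → 0 ≤ t → t ≤ A.sg R →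
  ∫⁻ p in PW F 2 R, (∫⁻ z : ℍ, ‖φ z‖ₑ * ‖psi D ch A.z A.z1 R t p z‖ₑ) ^ 2 ∂mP ≤ ENNReal.ofReal (R ^ (4 / 5 : ℝ) * nn F φ)

/-- **Row QDF** (copy of EDF (helper17); short; from QDA, NFM, NFR; VQ: VCD). The same exponents. -/
def QDF_stmt : Prop := ∀ k : ℝ, 0 < k → ∃ C : ℝ, 1 ≤ C ∧ ∀ (ch : ℝ → ℝ) (B : ℕ → ℝ) (A : Prm), CH ch → Adm C A → ∃ R0 : ℝ, 1 ≤ R0 ∧ ∀ (R t L : ℝ) (Γ : Subgroup SL(2, ℝ)) (F : Set ℍ) (D : Dyn) (φ : ℍ → ℂ) (g : ℍ → ℝ), R0 ≤ R → Dm Γ F → OKN Γ k B D → FH Γ F φ →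
  QU.Inv Γ g → 0 ≤ L → (∀ z w : ℍ, |g z - g w| ≤ L * dist z w) → 0 ≤ t → t ≤ A.sg R →
    nP F 2 R (fun p => aF D R t (pv D ch A.z A.z1 R t) (fun z => ((g z : ℝ) : ℂ) * φ z) p - ((g (D.fl p.2 t p.1 • I) : ℝ) : ℂ) * aF D R t (pv D ch A.z A.z1 R t) φ p) ≤ L ^ 2 * R ^ (-(1 / 6) : ℝ) * nn F φ

/-- **Row QDD** (copy of EDD (helper65); short; from NRM, NPR, NFM, NFR, NHA, QU.GRN). Supports: `dist (p.1 i) z ≤ C |t| + 1` (NFR). -/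
def QDD_stmt : Prop := ∀ k : ℝ, 0 < k → ∃ C : ℝ, 1 ≤ C ∧ ∀ (ch : ℝ → ℝ) (B : ℕ → ℝ) (A : Prm), CH ch → Adm C A → ∃ R0 : ℝ, 1 ≤ R0 ∧ ∀ (R : ℝ) (Γ : Subgroup SL(2, ℝ)) (F : Set ℍ) (D : Dyn) (φ : ℍ → ℂ), R0 ≤ R → Dm Γ F → OKN Γ k B D → FH Γ F φ → QU.CD 2 φ → FH Γ F (Hop D.U R φ) →
  (∀ p ∈ GW 2 R, ∀ t ∈ Icc 0 (A.sg R), HasDerivAt (fun s => aF D R s (pv D ch A.z A.z1 R s) φ p)
    (Complex.I * aF D R t (pv D ch A.z A.z1 R t) (Hop D.U R φ) p + Complex.I * aF D R t (Er D ch A.z A.z1 R t) φ p) t) ∧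
  (∀ u : ℍ → ℂ, FH Γ F u → ContinuousOn (fun x : (SL(2, ℝ) × ℝ) × ℝ => aF D R x.2 (pv D ch A.z A.z1 R x.2) u x.1) (GW 2 R ×ˢ Icc 0 (A.sg R))) ∧
  ContinuousOn (fun x : (SL(2, ℝ) × ℝ) × ℝ => aF D R x.2 (Er D ch A.z A.z1 R x.2) φ x.1) (GW 2 R ×ˢ Icc 0 (A.sg R))

/-- **Row QDT** (copy of EDT (helper55/VQ/EDT.lean); short; from QDD, QDF, QDH, QDL, NSA, NFB, NFM, ND0, NFR, NUB). The Lipschitz constant of `(R/2) U f` is `R^(2/100)/2` (QDL): `L² R^(-1/6) ≤ R^(1/25 - 1/6) ≤ R^(-2/101)`. Everything else is the same. -/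
def QDT_stmt : Prop := ∀ k : ℝ, 0 < k → ∃ C : ℝ, 1 ≤ C ∧ ∀ (ch : ℝ → ℝ) (B : ℕ → ℝ) (A : Prm), CH ch → Adm C A → ∃ R0 : ℝ, 1 ≤ R0 ∧ ∀ (R t : ℝ) (Γ : Subgroup SL(2, ℝ)) (F : Set ℍ) (D : Dyn) (f F' : ℍ → ℝ) (μ : ℝ) (φ : ℍ → ℂ), R0 ≤ R → QU.SurfaceGroup Γ → QU.NiceDom Γ F → OKN Γ k B D → EgT Γ D.U R f F' μ φ →
  0 ≤ t → t ≤ A.sg R →
    nP F 2 R (fun p => aF D R t (pv D ch A.z A.z1 R t) φ p - Complex.exp (((thP D f R t p : ℝ) : ℂ) * Complex.I) * QF D.U ch A.z R φ p) ≤ R ^ (-(1 / 60) : ℝ) * nn F φ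

/-- **Row QD1** (copy of ED1 (helper4); short; from NTS, QDW, QDT, NSA, NQA, NFM, NFR). The same exponents. -/
def QD1_stmt : Prop := ∀ k : ℝ, 0 < k → ∃ C : ℝ, 1 ≤ C ∧ ∀ (ch : ℝ → ℝ) (B : ℕ → ℝ) (A : Prm), CH ch → Adm C A → ∃ R0 : ℝ, 1 ≤ R0 ∧ ∀ (R : ℝ) (Γ : Subgroup SL(2, ℝ)) (F : Set ℍ) (D : Dyn) (f F' : ℍ → ℝ) (μ : ℝ) (φ : ℍ → ℂ), R0 ≤ R → QU.SurfaceGroup Γ → QU.NiceDom Γ F → OKN Γ k B D → EgT Γ D.U R f F' μ φ →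
  nP F 2 R (fun p => Op (us D ch A R) (QF D.U ch A.z R φ) p - Complex.exp (((thP D f R (A.sg R) p : ℝ) : ℂ) * Complex.I) * QF D.U ch A.z R φ p) ≤ R ^ (-(1 / 70) : ℝ) * nn F φ ∧
  nP F 2 R (fun p => Op (pr D ch A R) (QF D.U ch A.z R φ) p - QF D.U ch A.z R φ p) ≤ R ^ (-(1 / 5) : ℝ) * nn F φ

/-- **Row QDG** (copy of EDG (helper57); short; from NHG; VQ: VBO). The same exponents (`C` of NHG depends on `k`). -/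
def QDG_stmt : Prop := ∀ k : ℝ, 0 < k → ∃ C : ℝ, 1 ≤ C ∧ ∀ (B : ℕ → ℝ) (A : Prm), Adm C A → ∃ R0 : ℝ, 1 ≤ R0 ∧ ∀ (R t : ℝ) (Γ : Subgroup SL(2, ℝ)) (D : Dyn) (p q : SL(2, ℝ) × ℝ), R0 ≤ R → OKN Γ k B D → p ∈ GW 2 R → q ∈ GW 2 R → Nb (A.r R) p q → 0 ≤ t → t ≤ A.tu R →
  dist (D.fl p.2 t p.1 • I : ℍ) (D.fl q.2 t q.1 • I) ≤ R ^ (-(1 / 3) : ℝ)

/-- **Row QDY** (copy of EDY (helper2); short; from QDG, QDL, NHA). (2) `(R/2) log R · R^(-98/100) R^(-1/3) ≤ R^(-1/4)` (`1/50 - 1/3 < -1/4`). -/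
def QDY_stmt : Prop := ∀ k : ℝ, 0 < k → ∃ C : ℝ, 1 ≤ C ∧ ∀ (B : ℕ → ℝ) (A : Prm), Adm C A → ∃ R0 : ℝ, 1 ≤ R0 ∧ ∀ (R : ℝ) (Γ : Subgroup SL(2, ℝ)) (D : Dyn) (f : ℍ → ℝ), R0 ≤ R → OKN Γ k B D → Sm Γ (R ^ (1 / 100 : ℝ)) R f →
  (∀ (s t : ℝ) (p : SL(2, ℝ) × ℝ), p ∈ GW 2 R → thP D f R (s + t) p = thP D f R s p + thP D f R t (D.ph s p)) ∧
  ∀ (t : ℝ) (p q : SL(2, ℝ) × ℝ), p ∈ GW 2 R → q ∈ GW 2 R → Nb (A.r R) p q → 0 ≤ t → t ≤ A.tu R → |thP D f R t p - thP D f R t q| ≤ R ^ (-(1 / 4) : ℝ)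

/-- **Row QDC** (copy of EDC (helper38); short; from NUS, NUM; VQ: VSH, VDM). The same exponents. -/
def QDC_stmt : Prop := ∀ k : ℝ, 0 < k → ∃ C : ℝ, 1 ≤ C ∧ ∀ (ch : ℝ → ℝ) (B : ℕ → ℝ) (A : Prm), CH ch → Adm C A → ∃ R0 : ℝ, 1 ≤ R0 ∧ ∀ (R w : ℝ) (Γ : Subgroup SL(2, ℝ)) (F : Set ℍ) (D : Dyn) (H v : SL(2, ℝ) × ℝ → ℂ), R0 ≤ R → Dm Γ F → OKN Γ k B D → 0 ≤ w → SV Γ A R w H → FP Γ F v →
  nP F 2 R (fun p => Op (us D ch A R) (fun q => H q * v q) p - H (D.ph (A.sg R) p) * Op (us D ch A R) v p) ≤ w ^ 2 * R ^ (1 / 100 : ℝ) * nP F 2 R v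

/-- **Row QDM** (copy of EDM (helper92); short; from QD1, QDC, QDY, QDW, NTS, NTN, NUM). The same exponents. -/
def QDM_stmt : Prop := ∀ k : ℝ, 0 < k → ∃ C : ℝ, 1 ≤ C ∧ ∀ (ch : ℝ → ℝ) (B : ℕ → ℝ) (A : Prm), CH ch → Adm C A → ∃ R0 : ℝ, 1 ≤ R0 ∧ ∀ (R : ℝ) (Γ : Subgroup SL(2, ℝ)) (F : Set ℍ) (D : Dyn) (f F' : ℍ → ℝ) (μ : ℝ) (φ : ℍ → ℂ), R0 ≤ R → QU.SurfaceGroup Γ → QU.NiceDom Γ F → OKN Γ k B D → EgT Γ D.U R f F' μ φ →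
  ∀ j : ℕ, j ≤ A.m → nP F 2 R (fun p => Op (usm D ch A R j) (QF D.U ch A.z R φ) p - Complex.exp (((thP D f R (j * A.sg R) p : ℝ) : ℂ) * Complex.I) * QF D.U ch A.z R φ p) ≤ R ^ (-(1 / 80) : ℝ) * nn F φ

/-- **Row QD3** (final row I3N; copy of ED3 (helper53); short; from QDM, QDW, NTN, NUM; VQ: EDZ). `d = 1/100`. -/
def QD3_stmt : Prop := I3N_stmt

/-- **Row QDI** (copy of EDI (helper25); short; from EAI (VQ), QD1, QDC, QDW, NTS, NTN, NUM). The same exponents. -/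
def QDI_stmt : Prop := ∀ k : ℝ, 0 < k → ∃ C : ℝ, 1 ≤ C ∧ ∀ (ch : ℝ → ℝ) (B : ℕ → ℝ) (A : Prm), CH ch → Adm C A → ∃ R0 : ℝ, 1 ≤ R0 ∧ ∀ (R w : ℝ) (Γ : Subgroup SL(2, ℝ)) (F : Set ℍ) (D : Dyn) (f F' : ℍ → ℝ) (μ : ℝ) (φ : ℍ → ℂ) (H : SL(2, ℝ) × ℝ → ℝ), R0 ≤ R → QU.SurfaceGroup Γ → QU.NiceDom Γ F → OKN Γ k B D → EgT Γ D.U R f F' μ φ →
  0 ≤ w → SV Γ A R w (fun p => ((H p : ℝ) : ℂ)) →
    |(∫ p in PW F 2 R, H (D.ph (A.sg R) p) * ‖QF D.U ch A.z R φ p‖ ^ 2 ∂mP) - ∫ p in PW F 2 R, H p * ‖QF D.U ch A.z R φ p‖ ^ 2 ∂mP| ≤ (w * R ^ (1 / 200 : ℝ) + R ^ (-(1 / 300) : ℝ)) * nn F φ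

/-- **Row QDS** (copy of EDS (helper79); short; from QDT, QDF, QDW, NSA, NFR, NFM, NUB, NHA). The same exponents. -/
def QDS_stmt : Prop := ∀ k : ℝ, 0 < k → ∃ C : ℝ, 1 ≤ C ∧ ∀ (ch : ℝ → ℝ) (B : ℕ → ℝ) (A : Prm), CH ch → Adm C A → ∃ R0 : ℝ, 1 ≤ R0 ∧ ∀ (R s L : ℝ) (Γ : Subgroup SL(2, ℝ)) (F : Set ℍ) (D : Dyn) (f F' : ℍ → ℝ) (μ : ℝ) (φ : ℍ → ℂ) (h : ℍ → ℝ), R0 ≤ R → QU.SurfaceGroup Γ → QU.NiceDom Γ F → OKN Γ k B D → EgT Γ D.U R f F' μ φ →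
  QU.Inv Γ h → (∀ z, 0 ≤ h z ∧ h z ≤ 1) → 0 ≤ L → (∀ z w : ℍ, |h z - h w| ≤ L * dist z w) → 0 ≤ s → s ≤ A.sg R →
    |(∫ p in PW F 2 R, h (D.fl p.2 s p.1 • I) * ‖QF D.U ch A.z R φ p‖ ^ 2 ∂mP) - ∫ z in F, h z * ‖φ z‖ ^ 2| ≤ (1 + L) * R ^ (-(1 / 250) : ℝ) * nn F φ

/-- **Row QDV** (copy of EDV (helper40); short; from QDI, QDS, QDG, QDW, NHA, NTN, NUB). The same exponents; the flow is the identity for `|E| > k`. -/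
def QDV_stmt : Prop := ∀ k : ℝ, 0 < k → ∃ C : ℝ, 1 ≤ C ∧ ∀ (ch : ℝ → ℝ) (B : ℕ → ℝ) (A : Prm) (L : ℝ), CH ch → Adm C A → 0 ≤ L → ∃ R0 : ℝ, 1 ≤ R0 ∧ ∀ (R : ℝ) (Γ : Subgroup SL(2, ℝ)) (F : Set ℍ) (D : Dyn) (f F' : ℍ → ℝ) (μ : ℝ) (φ : ℍ → ℂ) (h : ℍ → ℝ), R0 ≤ R → QU.SurfaceGroup Γ → QU.NiceDom Γ F → OKN Γ k B D → EgT Γ D.U R f F' μ φ →
  QU.Inv Γ h → (∀ z, 0 ≤ h z ∧ h z ≤ 1) → (∀ z w : ℍ, |h z - h w| ≤ L * dist z w) →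
    |(∫ p in PW F 2 R, avP D h (A.tu R) p * ‖QF D.U ch A.z R φ p‖ ^ 2 ∂mP) - ∫ z in F, h z * ‖φ z‖ ^ 2| ≤ R ^ (-(1 / 400) : ℝ) * nn F φ

/-- **Row QD8** (final row I8N; copy of ED8 (helper57); short; from QDV; VQ: EDZ). `d = 1/400`; `TF`: take `L = max L 0`. -/
def QD8_stmt : Prop := I8N_stmt

end

end Pool.Agent.VN
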